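import Pool.Agent.Work.MP_70ae0e_co.Per

open Pool.Agent.Work.MP_70ae0e_co

namespace Pool.Agent.Results.MP_70ae0e_co.TwoAdic

/-- The function `n ↦ T(n, 2n - 3; 3)`, `n ≥ 4`, is 2-adically continuous. -/
theorem result (k : ℕ) (hk : 1 ≤ k) :
    ∃ m : ℕ, ∀ n n' : ℤ, 4 ≤ n → 4 ≤ n' → n ≡ n' [ZMOD 2 ^ m] →
      T3 n (2 * n - 3) ≡ T3 n' (2 * n' - 3) [ZMOD 2 ^ k] :=
  main k hk

end Pool.Agent.Results.MP_70ae0e_co.TwoAdic
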